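import Mathlib

/-! Rotations: recurrence, tilting, and the closure of a monoid of isometries. -/

namespace Pool.Agent.H.MP_b41e65_an

open Set Metric Filter Topology

variable {E : Type} [NormedAddCommGroup E] [InnerProductSpace ℝ E] [FiniteDimensional ℝ E]

/-- closeness in operator norm -/
def Close (A B : E ≃ₗᵢ[ℝ] E) (ε : ℝ) : Prop := ∀ x, ‖A x - B x‖ ≤ ε * ‖x‖

omit [FiniteDimensional ℝ E] in
theorem Close.trans {A B C : E ≃ₗᵢ[ℝ] E} {ε δ : ℝ} (h1 : Close A B ε) (h2 : Close B C δ) :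
    Close A C (ε + δ) := fun x => by
  have := norm_sub_le_norm_sub_add_norm_sub (A x) (B x) (C x)
  linarith [h1 x, h2 x]

omit [FiniteDimensional ℝ E] in
theorem Close.left {A B : E ≃ₗᵢ[ℝ] E} {ε : ℝ} (h : Close A B ε) (C : E ≃ₗᵢ[ℝ] E) :
    Close (C * A) (C * B) ε := fun x => by
  simpa [← map_sub] using h x

omit [FiniteDimensional ℝ E] in
theorem Close.right {A B : E ≃ₗᵢ[ℝ] E} {ε : ℝ} (h : Close A B ε) (C : E ≃ₗᵢ[ℝ] E) :
    Close (A * C) (B * C) ε := fun x => by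
  simpa using h (C x)

omit [FiniteDimensional ℝ E] in
theorem Close.symm {A B : E ≃ₗᵢ[ℝ] E} {ε : ℝ} (h : Close A B ε) : Close B A ε := fun x => by
  rw [norm_sub_rev]; exact h x

theorem recur (A : E ≃ₗᵢ[ℝ] E) {ε : ℝ} (hε : 0 < ε) : ∃ N : ℕ, Close (A ^ (N + 1)) 1 ε := by
  obtain ⟨L, -, φ, hφ, hL⟩ := tendsto_subseq_of_bounded (isBounded_closedBall (x := 0) (r := 1))
    (x := fun n : ℕ => (A ^ n).toLinearIsometry.toContinuousLinearMap)
    (fun n => mem_closedBall_zero_iff.2 (LinearIsometry.norm_toContinuousLinearMap_le _))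
  obtain ⟨n, hn⟩ := Metric.cauchySeq_iff'.1 hL.cauchySeq ε hε
  obtain ⟨N, hN⟩ := Nat.exists_eq_add_of_lt (hφ (Nat.lt_succ_self n))
  refine ⟨N, fun x => ?_⟩
  have h1 := hn (n + 1) n.le_succ
  rw [dist_eq_norm] at h1
  have h2 := (ContinuousLinearMap.le_of_opNorm_le _ h1.le x)
  have h3 : φ (n + 1) = φ n + (N + 1) := hN
  simp only [Function.comp, h3, pow_add A (φ n)] at h2
  rw [← (A ^ φ n).norm_map, map_sub]
  simpa using h2

/-- closure of a monoid of isometries -/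
def clos (M : Submonoid (E ≃ₗᵢ[ℝ] E)) : Subgroup (E ≃ₗᵢ[ℝ] E) :=
  let G : Submonoid (E ≃ₗᵢ[ℝ] E) :=
    { carrier := {A | ∀ ε > 0, ∃ B ∈ M, Close A B ε}
      one_mem' := fun ε hε => ⟨1, M.one_mem, fun x => by simp; positivity⟩
      mul_mem' := fun {A A'} h h' ε hε => by
        obtain ⟨B, hB, h1⟩ := h _ (half_pos hε)
        obtain ⟨B', hB', h2⟩ := h' _ (half_pos hε)
        exact ⟨B * B', M.mul_mem hB hB', add_halves ε ▸ (h1.right A').trans (h2.left B)⟩ }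
  { G with
    inv_mem' := fun {A} h ε hε => by
      obtain ⟨N, hN⟩ := recur A (half_pos hε)
      obtain ⟨B, hB, h1⟩ := G.pow_mem h N _ (half_pos hε)
      have h2 := hN.right A⁻¹
      rw [pow_succ, mul_inv_cancel_right, one_mul] at h2
      exact ⟨B, hB, add_halves ε ▸ h2.symm.trans h1⟩ }

theorem mem_clos {M : Submonoid (E ≃ₗᵢ[ℝ] E)} {A : E ≃ₗᵢ[ℝ] E} :
    A ∈ clos M ↔ ∀ ε > 0, ∃ B ∈ M, Close A B ε := Iff.rfl

/-- determinant one -/
def SO (A : E ≃ₗᵢ[ℝ] E) : Prop := LinearMap.det (A.toLinearEquiv : E →ₗ[ℝ] E) = 1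

/-- reflection in the hyperplane orthogonal to `n` -/
noncomputable def rf (n : E) : E ≃ₗᵢ[ℝ] E := (ℝ ∙ n)ᗮ.reflection

theorem rot {a b : E} (h : ‖a‖ = ‖b‖) (ha : a ≠ 0) (hab : b - -a ≠ 0) :
    SO (rf (b - -a) * rf (a - -a)) ∧ (rf (b - -a) * rf (a - -a)) a = b := by
  constructor
  · have key : ∀ n : E, n ≠ 0 → LinearMap.det ((rf n).toLinearEquiv : E →ₗ[ℝ] E) = -1 := by
      intro n hn
      have := (ℝ ∙ n)ᗮ.det_reflection
      rwa [Submodule.orthogonal_orthogonal, finrank_span_singleton hn, pow_one] at this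
    have h2 : a - -a ≠ 0 := by
      rw [sub_neg_eq_add, ← two_smul ℝ]; exact smul_ne_zero two_ne_zero ha
    have : ((rf (b - -a) * rf (a - -a)).toLinearEquiv : E →ₗ[ℝ] E) =
      ((rf (b - -a)).toLinearEquiv : E →ₗ[ℝ] E) ∘ₗ ((rf (a - -a)).toLinearEquiv : E →ₗ[ℝ] E) := rfl
    rw [SO, this, LinearMap.det_comp, key _ hab, key _ h2]
    norm_num
  · have h1 : rf (a - -a) a = -a := Submodule.reflection_sub (norm_neg a).symm
    have h2 : rf (b - -a) b = -a := Submodule.reflection_sub (by rw [norm_neg, h])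
    have h3 : rf (b - -a) (rf (b - -a) b) = b := Submodule.reflection_reflection _ _
    change rf (b - -a) (rf (a - -a) a) = b
    rw [h2] at h3
    rwa [h1]

omit [FiniteDimensional ℝ E] in
theorem rf_cont {n₀ : E} (hn : n₀ ≠ 0) {ε : ℝ} (hε : 0 < ε) :
    ∀ᶠ n in 𝓝 n₀, Close (rf n) (rf n₀) ε := by
  let T : E → E →L[ℝ] E := fun n =>
    (2 / ‖n‖ ^ 2) • ContinuousLinearMap.smulRightL ℝ E E (innerSL ℝ n) n
  have hT : ContinuousAt T n₀ := by
    have : ‖n₀‖ ^ 2 ≠ 0 := by simpa using hn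
    simp only [T]
    fun_prop (disch := assumption)
  have e : ∀ n x, rf n x = x - T n x := fun n x => by
    rw [rf, Submodule.reflection_orthogonal_apply, Submodule.reflection_singleton_apply]
    simp only [T, neg_sub, smul_apply, ContinuousLinearMap.smulRightL_apply_apply,
      ContinuousLinearMap.smulRight_apply, innerSL_apply_apply, smul_smul, two_smul, ← add_smul]
    congr 2
    simp only [RCLike.ofReal_real_eq_id, id]
    ring
  filter_upwards [hT.eventually (closedBall_mem_nhds _ hε)] with n h x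
  rw [e, e, sub_sub_sub_cancel_left, norm_sub_rev]
  exact ContinuousLinearMap.le_of_opNorm_le _ (mem_closedBall_iff_norm.1 h) x

theorem tilt (V : Submodule ℝ E) {ν : E} (hν : ν ∈ Vᗮ) (h0 : ν ≠ 0) {ε : ℝ} (hε : 0 < ε) :
    ∃ δ > 0, ∀ a s, ‖a - ν‖ < δ → ‖s‖ < δ → s ∈ V →
      ∃ R : E ≃ₗᵢ[ℝ] E, SO R ∧ Close R 1 ε ∧ V.starProjection (R a) = s := by
  have hn : 0 < ‖ν‖ := norm_pos_iff.2 h0
  have h2 : ν - -ν ≠ 0 := by
    rw [sub_neg_eq_add, ← two_smul ℝ]; exact smul_ne_zero two_ne_zero h0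
  let b : E × E → E := fun p => p.2 + (√(‖p.1‖ ^ 2 - ‖p.2‖ ^ 2) / ‖ν‖) • ν
  have t1 : Tendsto (fun p : E × E => b p - -p.1) (𝓝 (ν, 0)) (𝓝 (ν - -ν)) := by
    have : Continuous fun p : E × E => b p - -p.1 := by simp only [b]; fun_prop
    convert this.tendsto (ν, 0) using 3
    simp [b, hn.ne']
  have t2 : Tendsto (fun p : E × E => p.1 - -p.1) (𝓝 (ν, 0)) (𝓝 (ν - -ν)) :=
    (by fun_prop : Continuous fun p : E × E => p.1 - -p.1).tendsto (ν, 0)
  have t3 : ∀ᶠ p : E × E in 𝓝 (ν, 0), ‖p.2‖ < ‖p.1‖ :=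
    ContinuousAt.eventually_lt (by fun_prop) (by fun_prop) (by simpa using h0)
  obtain ⟨δ, hδ, h⟩ := Metric.eventually_nhds_iff.1
    (((t1.eventually (rf_cont h2 (half_pos hε))).and (t2.eventually (rf_cont h2 (half_pos hε)))).and
      (t3.and (t1.eventually_ne h2)))
  refine ⟨δ, hδ, fun a s ha hs hsV => ?_⟩
  obtain ⟨⟨h3, h4⟩, h5, h6⟩ := @h (a, s) (by
    rw [Prod.dist_eq, dist_eq_norm, dist_zero_right]; exact max_lt ha hs)
  simp only at h3 h4 h5 h6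
  have h7 : ‖a‖ = ‖b (a, s)‖ := by
    have h8 : inner ℝ s ((√(‖a‖ ^ 2 - ‖s‖ ^ 2) / ‖ν‖) • ν) = 0 :=
      Submodule.inner_right_of_mem_orthogonal hsV (Submodule.smul_mem _ _ hν)
    have h9 := norm_add_sq_eq_norm_sq_add_norm_sq_real h8
    rw [norm_smul, Real.norm_eq_abs, abs_of_nonneg (by positivity), div_mul_cancel₀ _ hn.ne',
      Real.mul_self_sqrt (by nlinarith [norm_nonneg s])] at h9
    exact (mul_self_inj_of_nonneg (norm_nonneg _) (norm_nonneg _)).1 (by simp only [b]; linarith)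
  obtain ⟨r1, r2⟩ := rot h7 (norm_pos_iff.1 ((norm_nonneg _).trans_lt h5)) h6
  refine ⟨_, r1, ?_, ?_⟩
  · have := (h3.right (rf (a - -a))).trans (h4.left (rf (ν - -ν)))
    rwa [add_halves, show rf (ν - -ν) * rf (ν - -ν) = 1 from
      Submodule.reflection_mul_reflection _] at this
  · rw [r2]
    simp only [b]
    rw [map_add, map_smul, Submodule.starProjection_eq_self_iff.2 hsV,
      (Submodule.starProjection_apply_eq_zero_iff V).2 hν, smul_zero, add_zero]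

theorem kill (V : Submodule ℝ E) (hV : V ≠ ⊤) {d : E} (hd : d ≠ 0) :
    ∃ R : E ≃ₗᵢ[ℝ] E, SO R ∧ R d ∈ Vᗮ := by
  obtain ⟨ν, hν, h0⟩ := (Submodule.ne_bot_iff _).1 (mt Submodule.orthogonal_eq_bot_iff.1 hV)
  have hn : 0 < ‖ν‖ := norm_pos_iff.2 h0
  have h1 : ‖d‖ = ‖(‖d‖ / ‖ν‖) • ν‖ := by
    rw [norm_smul, Real.norm_eq_abs, abs_of_nonneg (by positivity), div_mul_cancel₀ _ hn.ne']
  by_cases h : (‖d‖ / ‖ν‖) • ν - -d = 0
  · refine ⟨1, LinearMap.det_id, ?_⟩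
    rw [sub_neg_eq_add, add_eq_zero_iff_neg_eq] at h
    rw [LinearIsometryEquiv.coe_one, id, ← h]
    exact Submodule.neg_mem _ (Submodule.smul_mem _ _ hν)
  · obtain ⟨r1, r2⟩ := rot h1 hd h
    exact ⟨_, r1, r2.symm ▸ Submodule.smul_mem _ _ hν⟩

end Pool.Agent.H.MP_b41e65_an
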