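import Pool.Agent.H.MP_b41e65_an.A

/-! Patterns in projections of sets with many self-similarities. -/

namespace Pool.Agent.H.MP_b41e65_an

open Set Metric Filter Topology

variable {E : Type} [NormedAddCommGroup E] [InnerProductSpace ℝ E] [FiniteDimensional ℝ E]

/-- non-expanding similarity mapping `F` to itself -/
def Sim (F : Set E) (l : ℝ) (A : E ≃ₗᵢ[ℝ] E) (b : E) : Prop :=
  0 < l ∧ l ≤ 1 ∧ ∀ x ∈ F, l • A x + b ∈ F

variable {F : Set E}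

omit [FiniteDimensional ℝ E] in
theorem Sim.one : Sim F 1 1 0 := ⟨one_pos, le_rfl, fun x hx => by simpa using hx⟩

omit [FiniteDimensional ℝ E] in
theorem Sim.comp {l l' : ℝ} {A A' : E ≃ₗᵢ[ℝ] E} {b b' : E} (h : Sim F l A b)
    (h' : Sim F l' A' b') : Sim F (l * l') (A * A') (l • A b' + b) :=
  ⟨mul_pos h.1 h'.1, mul_le_one₀ h.2.1 h'.1.le h'.2.1, fun x hx => by
    have := h.2.2 _ (h'.2.2 x hx)
    simpa [smul_smul, add_assoc] using this⟩

omit [FiniteDimensional ℝ E] in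
theorem Sim.pow {l : ℝ} {A : E ≃ₗᵢ[ℝ] E} {b : E} (h : Sim F l A b) (N : ℕ) :
    ∃ c, Sim F (l ^ N) (A ^ N) c := by
  induction N with
  | zero => exact ⟨0, by simpa using Sim.one⟩
  | succ N ih =>
    obtain ⟨c, hc⟩ := ih
    exact ⟨_, by simpa only [pow_succ] using hc.comp h⟩

/-- rotation parts -/
def mon (F : Set E) : Submonoid (E ≃ₗᵢ[ℝ] E) where
  carrier := {A | ∃ l b, Sim F l A b}
  one_mem' := ⟨1, 0, Sim.one⟩
  mul_mem' := fun ⟨_, _, h⟩ ⟨_, _, h'⟩ => ⟨_, _, h.comp h'⟩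

/-- standing hypotheses -/
structure Hyp (F : Set E) (D : ℝ) : Prop where
  bd : ∀ y ∈ F, ‖y‖ ≤ D
  nt : F.Nontrivial
  so : ∀ A, SO A → A ∈ clos (mon F)
  loc : ∀ z ∈ F, ∀ δ > 0, ∃ l A b, Sim F l A b ∧ l ≤ δ ∧ ∀ x ∈ F, ‖l • A x + b - z‖ ≤ δ

/-- achievable pattern -/
def Ach (F : Set E) (V : Submodule ℝ E) (T : Set E) : Prop :=
  ∀ η > 0, ∃ A ∈ clos (mon F), ∃ l > 0, ∃ b, ∀ τ ∈ T, ∃ y ∈ F,
    ‖V.starProjection (A y) - b - l • τ‖ ≤ η * l

variable {D : ℝ} {V : Submodule ℝ E}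

theorem Ach.mono {T T' : Set E} (h : Ach F V T) (hT : T' ⊆ T) : Ach F V T' := fun η hη => by
  obtain ⟨A, hA, l, hl, b, h⟩ := h η hη
  exact ⟨A, hA, l, hl, b, fun τ hτ => h τ (hT hτ)⟩

theorem Hyp.twins (H : Hyp F D) : ∃ ρ > 0, ∀ ε > 0, ∃ μ U V u v, Sim F μ U u ∧ Sim F μ V v ∧
    Close U 1 ε ∧ Close V 1 ε ∧ ∀ x ∈ F, ρ ≤ ‖μ • V x + v - (μ • U x + u)‖ := by
  obtain ⟨x₁, h₁, x₂, h₂, hne⟩ := H.nt
  have hρ : 0 < ‖x₂ - x₁‖ / 3 := by
    have := norm_pos_iff.2 (sub_ne_zero.2 hne.symm)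
    positivity
  obtain ⟨l, A, a, ha, -, ha2⟩ := H.loc x₁ h₁ _ hρ
  obtain ⟨m, B, b, hb, -, hb2⟩ := H.loc x₂ h₂ _ hρ
  refine ⟨_, hρ, fun ε hε => ?_⟩
  obtain ⟨N, hN⟩ := recur (A * B) hε
  obtain ⟨c, hc⟩ := (ha.comp hb).pow N
  obtain ⟨e, he⟩ := (hb.comp ha).pow N
  have e1 : A * (B * (A * B) ^ N) = (A * B) ^ (N + 1) := by rw [pow_succ', mul_assoc]
  have e2 : B * (A * (B * A) ^ N) = A⁻¹ * ((A * B) ^ (N + 1) * A) := by
    rw [← mul_assoc, ← pow_succ', eq_inv_mul_iff_mul_eq, mul_pow_mul]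
  refine ⟨l * (m * (l * m) ^ N), _, _, _, _, ha.comp (hb.comp hc), by
    simpa only [mul_comm m l, mul_left_comm m l] using hb.comp (ha.comp he), e1 ▸ hN, ?_,
    fun x hx => ?_⟩
  · have := (hN.right A).left A⁻¹
    rwa [one_mul, inv_mul_cancel, ← e2] at this
  · have h1 := ha2 _ ((hb.comp hc).2.2 x hx)
    have h2 := hb2 _ ((ha.comp he).2.2 x hx)
    simp only [map_add, map_smul, smul_add, smul_smul, add_assoc, mul_comm m l, mul_left_comm m l,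
      LinearIsometryEquiv.coe_mul, Function.comp] at h1 h2 ⊢
    have key : ∀ p q : E, ‖p - x₁‖ ≤ ‖x₂ - x₁‖ / 3 → ‖q - x₂‖ ≤ ‖x₂ - x₁‖ / 3 →
        ‖x₂ - x₁‖ / 3 ≤ ‖q - p‖ := fun p q hp hq => by
      have h3 := norm_sub_le_norm_sub_add_norm_sub x₂ q x₁
      have h4 := norm_sub_le_norm_sub_add_norm_sub q p x₁
      rw [norm_sub_rev] at hq
      linarith
    simpa only [add_assoc] using key _ _ (by simpa only [add_assoc] using h1)
      (by simpa only [add_assoc] using h2)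

theorem Hyp.double (H : Hyp F D) (hV : V ≠ ⊤) {T : Set E} (h : Ach F V T) {σ : E} (hσ : σ ∈ V) :
    Ach F V (T ∪ (σ + ·) '' T) := by
  intro η hη
  obtain ⟨A, hA, l, hl, b, h⟩ := h _ (half_pos hη)
  obtain ⟨y₀, hy₀⟩ := H.nt.nonempty
  have hD : 0 < D + 1 := by linarith [H.bd _ hy₀, norm_nonneg y₀]
  obtain ⟨ρ, hρ, htw⟩ := H.twins
  set ε := η * l / (12 * (D + 1)) with hε
  have hε0 : 0 < ε := by positivity
  obtain ⟨μ, U, W, u, v, hU, hW, cU, cW, hsep⟩ := htw ε hε0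
  obtain ⟨A₀, hA₀, hk⟩ := kill V hV (norm_pos_iff.1 (hρ.trans_le (hsep y₀ hy₀)))
  obtain ⟨δ, hδ, ht⟩ := tilt V hk (by
    rw [← norm_pos_iff, A₀.norm_map]; exact hρ.trans_le (hsep y₀ hy₀)) hε0
  obtain ⟨k₁, B₁, e₁, h₁, hk₁, hn₁⟩ := H.loc y₀ hy₀ (min (δ / 3) (δ / (l * ‖σ‖ + 1)))
    (by positivity)
  obtain ⟨B₂, ⟨k₂, e₂, h₂⟩, cB⟩ := mem_clos.1 ((clos (mon F)).mul_mem ((clos (mon F)).inv_mem
    ((mem_clos (A := B₁)).2 fun ε hε => ⟨B₁, ⟨_, _, h₁⟩, fun x => by simp; positivity⟩))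
    ((clos (mon F)).mul_mem ((clos (mon F)).inv_mem (H.so _ hA₀)) hA)) ε hε0
  have hw := h₁.comp h₂
  have hw2 : ‖(k₁ * k₂) • (B₁ * B₂) y₀ + (k₁ • B₁ e₂ + e₁) - y₀‖ ≤ δ / 3 := by
    have := (hn₁ _ (h₂.2.2 _ hy₀)).trans (min_le_left _ _)
    simpa [smul_smul, add_assoc] using this
  have hκ : k₁ * k₂ * (l * ‖σ‖ + 1) ≤ δ := by
    have h3 := hk₁.trans (min_le_right _ _)
    rw [le_div_iff₀ (by positivity)] at h3
    calc _ ≤ k₁ * 1 * (l * ‖σ‖ + 1) := by gcongr; exacts [h₁.1.le, h₂.2.1]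
      _ ≤ δ := by rwa [mul_one]
  have cB' : Close (A₀ * (B₁ * B₂)) A ε := by
    have := ((cB.left B₁).left A₀).symm
    rwa [mul_inv_cancel_left, mul_inv_cancel_left] at this
  generalize k₁ * k₂ = κ at hw hw2 hκ
  generalize B₁ * B₂ = B at hw hw2 cB'
  generalize k₁ • B₁ e₂ + e₁ = e at hw hw2
  obtain ⟨R, hR, cR, hRe⟩ := ht (A₀ (μ • W (κ • B y₀ + e) + v - (μ • U (κ • B y₀ + e) + u)))
    ((μ * κ * l) • σ) (by
      rw [← map_sub, A₀.norm_map]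
      have e1 : μ • W (κ • B y₀ + e) + v - (μ • U (κ • B y₀ + e) + u) -
          (μ • W y₀ + v - (μ • U y₀ + u)) =
          μ • (W (κ • B y₀ + e - y₀) - U (κ • B y₀ + e - y₀)) := by
        simp only [map_sub, smul_sub]; abel
      rw [e1, norm_smul, Real.norm_eq_abs, abs_of_pos hU.1]
      have h3 := norm_sub_le (W (κ • B y₀ + e - y₀)) (U (κ • B y₀ + e - y₀))
      rw [W.norm_map, U.norm_map] at h3
      calc _ ≤ 1 * (2 * (δ / 3)) := by gcongr; exacts [hU.2.1, by linarith]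
        _ < δ := by linarith)
    (by
      rw [norm_smul, Real.norm_eq_abs, abs_of_pos (by have := hU.1; have := hw.1; positivity)]
      calc μ * κ * l * ‖σ‖ ≤ 1 * κ * l * ‖σ‖ := by gcongr; exacts [hw.1.le, hU.2.1]
        _ < δ := by nlinarith [hw.1])
    (V.smul_mem _ hσ)
  have main : ∀ (X : E ≃ₗᵢ[ℝ] E) (x : E), Close X 1 ε → ∀ τ, ∀ y ∈ F,
      ‖V.starProjection (A y) - b - l • τ‖ ≤ η / 2 * l →
      ‖V.starProjection ((R * A₀) (μ • X (κ • B y + e) + x)) -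
        (V.starProjection ((R * A₀) (μ • X (κ • B y₀ + e) + x)) -
          (μ * κ) • (V.starProjection (A y₀) - b)) - (μ * κ * l) • τ‖ ≤ η * (μ * κ * l) := by
    intro X x hX τ y hy h3
    have c1 := (cR.right (A₀ * (X * B))).trans
      ((((hX.right B).left A₀).trans (by simpa using cB')).left 1)
    have h4 := c1 (y - y₀)
    have h5 : ‖y - y₀‖ ≤ 2 * (D + 1) := by
      linarith [norm_sub_le y y₀, H.bd y hy, H.bd y₀ hy₀]
    have h6 : ‖V.starProjection ((R * (A₀ * (X * B))) (y - y₀) - (1 * A) (y - y₀))‖ ≤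
        η / 2 * l := by
      refine (V.norm_starProjection_apply_le _).trans (h4.trans ?_)
      calc _ ≤ (ε + (ε + ε)) * (2 * (D + 1)) := by gcongr
        _ = η / 2 * l := by rw [hε]; field_simp; ring
    have e1 : V.starProjection ((R * A₀) (μ • X (κ • B y + e) + x)) -
        (V.starProjection ((R * A₀) (μ • X (κ • B y₀ + e) + x)) -
          (μ * κ) • (V.starProjection (A y₀) - b)) - (μ * κ * l) • τ =
        (μ * κ) • (V.starProjection ((R * (A₀ * (X * B))) (y - y₀) - (1 * A) (y - y₀)) +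
          (V.starProjection (A y) - b - l • τ)) := by
      simp only [map_add, map_sub, map_smul, LinearIsometryEquiv.coe_mul, Function.comp, one_mul]
      module
    have hμκ : 0 < μ * κ := mul_pos hU.1 hw.1
    rw [e1, norm_smul, Real.norm_eq_abs, abs_of_pos hμκ]
    calc _ ≤ μ * κ * (η / 2 * l + η / 2 * l) := by
          gcongr
          exact (norm_add_le _ _).trans (add_le_add h6 h3)
      _ = _ := by ring
  refine ⟨R * A₀, (clos _).mul_mem (H.so _ hR) (H.so _ hA₀), μ * κ * l,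
    mul_pos (mul_pos hU.1 hw.1) hl, V.starProjection ((R * A₀) (μ • U (κ • B y₀ + e) + u)) -
      (μ * κ) • (V.starProjection (A y₀) - b), ?_⟩
  rintro _ (hτ | ⟨τ, hτ, rfl⟩)
  · obtain ⟨y, hy, h3⟩ := h _ hτ
    exact ⟨_, hU.2.2 _ (hw.2.2 y hy), main U u cU _ y hy h3⟩
  · obtain ⟨y, hy, h3⟩ := h _ hτ
    refine ⟨_, hW.2.2 _ (hw.2.2 y hy), le_of_eq_of_le (congrArg _ ?_) (main W v cW _ y hy h3)⟩
    rw [smul_add, ← hRe]
    simp only [map_sub, LinearIsometryEquiv.coe_mul, Function.comp]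
    abel

theorem Hyp.ap (H : Hyp F D) (hV : V ≠ ⊤) {T : Set E} (h : Ach F V T) {σ : E} (hσ : σ ∈ V)
    (M : ℕ) : Ach F V {x | ∃ τ ∈ T, ∃ m : ℕ, m ≤ M ∧ x = (m : ℝ) • σ + τ} := by
  induction M with
  | zero =>
    refine h.mono ?_
    rintro _ ⟨τ, hτ, m, hm, rfl⟩
    simpa [Nat.le_zero.1 hm] using hτ
  | succ M ih =>
    refine (H.double hV ih hσ).mono ?_
    rintro _ ⟨τ, hτ, m, hm, rfl⟩
    cases m with
    | zero => exact Or.inl ⟨τ, hτ, 0, Nat.zero_le _, rfl⟩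
    | succ m =>
      refine Or.inr ⟨_, ⟨τ, hτ, m, by omega, rfl⟩, ?_⟩
      push_cast
      module

theorem Hyp.grid (H : Hyp F D) (hV : V ≠ ⊤) {ι : Type} (e : ι → E) (he : ∀ i, e i ∈ V) (M : ℕ)
    (s : Finset ι) :
    Ach F V {x | ∃ m : ι → ℕ, (∀ i, m i ≤ M) ∧ x = ∑ i ∈ s, (m i : ℝ) • e i} := by
  classical
  induction s using Finset.induction_on with
  | empty =>
    intro η hη
    obtain ⟨y₀, hy₀⟩ := H.nt.nonempty
    refine ⟨1, (clos _).one_mem, 1, one_pos, V.starProjection y₀, ?_⟩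
    rintro _ ⟨m, -, rfl⟩
    exact ⟨y₀, hy₀, by simpa using hη.le⟩
  | insert i s hi ih =>
    refine (H.ap hV ih (he i) M).mono ?_
    rintro _ ⟨m, hm, rfl⟩
    exact ⟨_, ⟨m, hm, rfl⟩, m i, hm i, Finset.sum_insert hi⟩

theorem Hyp.real (H : Hyp F D) {T : Set E} (h : Ach F V T) : ∃ l > 0, ∃ b, ∀ τ ∈ T, ∃ y ∈ F,
    ‖V.starProjection y - b - l • τ‖ ≤ l / 5 := by
  obtain ⟨A, hA, l, hl, b, h⟩ := h (1 / 10) (by norm_num)
  obtain ⟨y₀, hy₀⟩ := H.nt.nonempty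
  have hD : 0 < D + 1 := by linarith [H.bd _ hy₀, norm_nonneg y₀]
  obtain ⟨B, ⟨κ, e, hB⟩, cB⟩ := mem_clos.1 hA (l / (10 * (D + 1))) (by positivity)
  refine ⟨κ * l, mul_pos hB.1 hl, κ • b + V.starProjection e, fun τ hτ => ?_⟩
  obtain ⟨y, hy, h1⟩ := h τ hτ
  refine ⟨_, hB.2.2 y hy, ?_⟩
  have h2 : ‖V.starProjection (A y - B y)‖ ≤ l / 10 := by
    refine (V.norm_starProjection_apply_le _).trans ((cB y).trans ?_)
    calc _ ≤ l / (10 * (D + 1)) * (D + 1) := by gcongr; linarith [H.bd y hy]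
      _ = _ := by field_simp
  have e1 : V.starProjection (κ • B y + e) - (κ • b + V.starProjection e) - (κ * l) • τ =
      κ • (V.starProjection (A y) - b - l • τ - V.starProjection (A y - B y)) := by
    simp only [map_add, map_sub, map_smul]
    module
  rw [e1, norm_smul, Real.norm_eq_abs, abs_of_pos hB.1]
  calc _ ≤ κ * (1 / 10 * l + l / 10) := by
        gcongr
        exacts [hB.1.le, (norm_sub_le _ _).trans (add_le_add h1 h2)]
    _ = _ := by ring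

end Pool.Agent.H.MP_b41e65_an
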